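import Pool.Agent.MP_ff3a4f_co.pl.Main

/-!
The sharp constant in the positive-fraction Kirchberger theorem in the plane:
the optimal `g` satisfies `g ε ∼ (2 ε / 3) ^ (1 / 3)` as `ε → 0`.
-/

set_option autoImplicit false

namespace Pool.Agent.MP_ff3a4f_co.Old.PlaneConstant

open Pool.Agent.MP_ff3a4f_co.Kirchberger Pool.Agent.MP_ff3a4f_co.Pl

/-- `γ` is an admissible value of `g ε` in the plane. -/
def Works (ε γ : ℝ) : Prop :=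
  ∀ (N : ℕ) (A B : Finset (EuclideanSpace ℝ (Fin 2))),
    Disjoint A B → A.card = N → B.card = N → GeneralPosition (A ∪ B) →
    (1 - ε) * ((2 * N).choose 4 : ℝ) ≤ (goodSets A B).card →
    ∃ A' ⊆ A, ∃ B' ⊆ B, Separated A' B' ∧ (1 - γ) * N ≤ A'.card ∧ (1 - γ) * N ≤ B'.card

theorem result (η : ℝ) (hη : 0 < η) :
    ∃ ε₀ : ℝ, 0 < ε₀ ∧ ∀ ε : ℝ, 0 < ε → ε < ε₀ →
      Works ε ((1 + η) * (2 * ε / 3) ^ (1 / 3 : ℝ)) ∧
        ¬ Works ε ((1 - η) * (2 * ε / 3) ^ (1 / 3 : ℝ)) := by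
  obtain ⟨r₁, h₁, hu⟩ := upper hη
  obtain ⟨r₂, h₂, hl⟩ := lower hη
  have hr : 0 < min r₁ r₂ := lt_min h₁ h₂
  refine ⟨3 * min r₁ r₂ ^ 3 / 2, by positivity, fun ε hε hε₀ => ?_⟩
  set ρ : ℝ := (2 * ε / 3) ^ (1 / 3 : ℝ) with hρ
  have hρ0 : 0 < ρ := by positivity
  have hρ3 : ρ ^ 3 = 2 * ε / 3 := by
    rw [hρ, show (1 / 3 : ℝ) = ((3 : ℕ) : ℝ)⁻¹ by norm_num]
    exact Real.rpow_inv_natCast_pow (by positivity) (by norm_num)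
  have hlt : ρ < min r₁ r₂ := lt_of_pow_lt_pow_left₀ 3 hr.le (by linarith)
  have e : ε = 3 * ρ ^ 3 / 2 := by linarith
  refine ⟨fun N A B h1 h2 h3 h4 h5 => hu ρ hρ0 (hlt.trans_le (min_le_left _ _)) N A B h1 h2 h3 h4
    (e ▸ h5), fun hW => ?_⟩
  obtain ⟨N, A, B, h1, h2, h3, h4, h5, h6⟩ := hl ρ hρ0 (hlt.trans_le (min_le_right _ _))
  obtain ⟨A', a1, B', a2, a3, a4, a5⟩ := hW N A B h1 h2 h3 h4 (e ▸ h5)
  exact h6 A' a1 B' a2 a3 a4 a5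

end Pool.Agent.MP_ff3a4f_co.Old.PlaneConstant
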