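import Mathlib
import Pool.Agent.MP_ff3a4f_co.Lower

/-!
The optimal function `g` in the positive-fraction Kirchberger theorem has order exactly
`ε ^ (1 / (d + 1))`.
-/

namespace Pool.Agent.MP_ff3a4f_co.Old.SharpRate

open Finset Pool.Agent.MP_ff3a4f_co.Kirchberger

/-- `γ` is an admissible value of `g ε` in dimension `d`. -/
def Works (d : ℕ) (ε γ : ℝ) : Prop :=
  ∀ (N : ℕ) (A B : Finset (EuclideanSpace ℝ (Fin d))),
    Disjoint A B → A.card = N → B.card = N → GeneralPosition (A ∪ B) →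
    (1 - ε) * ((2 * N).choose (d + 2) : ℝ) ≤ (goodSets A B).card →
    ∃ A' ⊆ A, ∃ B' ⊆ B, Separated A' B' ∧ (1 - γ) * N ≤ A'.card ∧ (1 - γ) * N ≤ B'.card

theorem result (d : ℕ) (hd : 1 ≤ d) :
    ∃ c C : ℝ, 0 < c ∧ 0 < C ∧ ∀ ε : ℝ, 0 < ε → ε ≤ 1 →
      Works d ε (C * ε ^ (1 / ((d : ℝ) + 1))) ∧ ¬ Works d ε (c * ε ^ (1 / ((d : ℝ) + 1))) := by
  obtain ⟨g, -, ⟨C, hC⟩, hg⟩ := fractional_kirchberger d hd
  refine ⟨1 / (8 * ((d : ℝ) + 2)), max C 1, by positivity, by positivity, fun ε hε hε1 => ⟨?_, ?_⟩⟩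
  · intro N A B hAB hA hB hgp hgood
    obtain ⟨A', hA', B', hB', hsep, h1, h2⟩ := hg ε hε.le N A B hAB hA hB (Or.inr hgp) hgood
    have h3 : g ε ≤ max C 1 * ε ^ (1 / ((d : ℝ) + 1)) :=
      (hC ε hε.le).trans (mul_le_mul_of_nonneg_right (le_max_left _ _) (by positivity))
    have h4 : (1 - max C 1 * ε ^ (1 / ((d : ℝ) + 1))) * N ≤ (1 - g ε) * N :=
      mul_le_mul_of_nonneg_right (by linarith) (Nat.cast_nonneg _)
    exact ⟨A', hA', B', hB', hsep, h4.trans h1, h4.trans h2⟩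
  · intro hW
    obtain ⟨e, rfl⟩ : ∃ e, d = e + 1 := ⟨d - 1, by omega⟩
    set η : ℝ := ε ^ (1 / (((e + 1 : ℕ) : ℝ) + 1)) with hη
    have hη0 : 0 < η := by positivity
    have hη1 : η ≤ 1 := Real.rpow_le_one hε.le hε1 (by positivity)
    have hηp : η ^ (e + 2) = ε := by
      rw [hη, show (((e + 1 : ℕ) : ℝ) + 1) = ((e + 2 : ℕ) : ℝ) by push_cast; ring, one_div]
      exact Real.rpow_inv_natCast_pow hε.le (by omega)
    set D : ℝ := (e : ℝ) + 3 with hD
    have hD3 : 3 ≤ D := by rw [hD]; linarith [Nat.cast_nonneg (α := ℝ) e]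
    set ρ : ℝ := η / (2 * D) with hρ
    have hρ0 : 0 < ρ := by positivity
    have hρ1 : 2 * ρ ≤ 1 := by
      rw [hρ, ← mul_div_assoc, div_le_one (by positivity)]; linarith
    obtain ⟨N, hN⟩ := exists_nat_ge (2 * D / ρ)
    have hN' : 2 * D ≤ ρ * N := by rw [div_le_iff₀ hρ0] at hN; linarith
    have hNR : (0 : ℝ) ≤ N := Nat.cast_nonneg _
    have hNbig : e + 2 ≤ N := by
      have : ((e + 2 : ℕ) : ℝ) ≤ N := by push_cast; nlinarith
      exact_mod_cast this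
    set m := ⌊ρ * N⌋₊ with hm
    have hm1 : (m : ℝ) ≤ ρ * N := Nat.floor_le (by positivity)
    have hm2 : ρ * N < m + 1 := Nat.lt_floor_add_one _
    have hmN : 2 * m ≤ N := by
      have : ((2 * m : ℕ) : ℝ) ≤ N := by push_cast; nlinarith
      exact_mod_cast this
    obtain ⟨A, B, hAB, hA, hB, hgp, hgood, hsep⟩ :=
      Pool.Agent.MP_ff3a4f_co.Lower.construction e N m hmN
    have hfrac : (((2 * m).choose (e + 2) : ℕ) : ℝ) * (2 * N) ≤
        ε * ((2 * N).choose (e + 1 + 2) : ℝ) := by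
      have hch : (2 * N) * (2 * N - 1).choose (e + 2) = (2 * N).choose (e + 1 + 2) * (e + 3) := by
        have := Nat.add_one_mul_choose_eq (2 * N - 1) (e + 2)
        rwa [show 2 * N - 1 + 1 = 2 * N by omega] at this
      have hch' : (2 * N : ℝ) * ((2 * N - 1).choose (e + 2) : ℝ) =
          ((2 * N).choose (e + 1 + 2) : ℝ) * D := by rw [hD]; exact_mod_cast hch
      have u1 : (((2 * m).choose (e + 2) : ℕ) : ℝ) ≤
          ((2 * m : ℕ) : ℝ) ^ (e + 2) / ((e + 2).factorial : ℝ) := Nat.choose_le_pow_div _ _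
      have u2 : ((2 * N - 1 + 1 - (e + 2) : ℕ) : ℝ) ^ (e + 2) / ((e + 2).factorial : ℝ) ≤
          ((2 * N - 1).choose (e + 2) : ℝ) := Nat.pow_le_choose _ _
      have u3 : (N : ℝ) ≤ ((2 * N - 1 + 1 - (e + 2) : ℕ) : ℝ) := by
        exact_mod_cast (by omega : N ≤ 2 * N - 1 + 1 - (e + 2))
      have u4 : (N : ℝ) ^ (e + 2) / ((e + 2).factorial : ℝ) ≤ ((2 * N - 1).choose (e + 2) : ℝ) :=
        le_trans (by gcongr) u2
      have u5 : ((2 * m : ℕ) : ℝ) ≤ η / D * N := by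
        push_cast
        have : η / D = 2 * ρ := by rw [hρ]; field_simp
        rw [this]; linarith
      have u6 : ((2 * m : ℕ) : ℝ) ^ (e + 2) * D ≤ ε * (N : ℝ) ^ (e + 2) := by
        have v1 : ((2 * m : ℕ) : ℝ) ^ (e + 2) ≤ (η / D * N) ^ (e + 2) := by gcongr
        have v2 : D ≤ D ^ (e + 2) := le_self_pow₀ (by linarith) (by omega)
        rw [mul_pow, div_pow, hηp] at v1
        calc ((2 * m : ℕ) : ℝ) ^ (e + 2) * D ≤ ε / D ^ (e + 2) * (N : ℝ) ^ (e + 2) * D ^ (e + 2) := by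
              gcongr
          _ = ε * (N : ℝ) ^ (e + 2) := by field_simp
      have u7 : (((2 * m).choose (e + 2) : ℕ) : ℝ) * D ≤ ε * ((2 * N - 1).choose (e + 2) : ℝ) := by
        calc (((2 * m).choose (e + 2) : ℕ) : ℝ) * D
            ≤ ((2 * m : ℕ) : ℝ) ^ (e + 2) / ((e + 2).factorial : ℝ) * D := by gcongr
          _ = ((2 * m : ℕ) : ℝ) ^ (e + 2) * D / ((e + 2).factorial : ℝ) := by ring
          _ ≤ ε * (N : ℝ) ^ (e + 2) / ((e + 2).factorial : ℝ) := by gcongr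
          _ = ε * ((N : ℝ) ^ (e + 2) / ((e + 2).factorial : ℝ)) := by ring
          _ ≤ ε * ((2 * N - 1).choose (e + 2) : ℝ) := by gcongr
      refine le_of_mul_le_mul_right ?_ (by linarith : (0 : ℝ) < D)
      calc (((2 * m).choose (e + 2) : ℕ) : ℝ) * (2 * N) * D
          = (((2 * m).choose (e + 2) : ℕ) : ℝ) * D * (2 * N) := by ring
        _ ≤ ε * ((2 * N - 1).choose (e + 2) : ℝ) * (2 * N) := by gcongr
        _ = ε * ((2 * N : ℝ) * ((2 * N - 1).choose (e + 2) : ℝ)) := by ring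
        _ = ε * ((2 * N).choose (e + 1 + 2) : ℝ) * D := by rw [hch']; ring
    have hgood' : (((2 * N).choose (e + 1 + 2) : ℕ) : ℝ) ≤
        (goodSets A B).card + (((2 * m).choose (e + 2) : ℕ) : ℝ) * (2 * N) := by
      exact_mod_cast hgood
    obtain ⟨A', hA', B', hB', hs, h1, h2⟩ := hW N A B hAB hA hB hgp (by linarith)
    have h3 : (A'.card : ℝ) + B'.card + m ≤ 2 * N + e := by
      exact_mod_cast hsep A' hA' B' hB' hs
    have h4 : 1 / (8 * (((e + 1 : ℕ) : ℝ) + 2)) * η = ρ / 4 := by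
      rw [hρ, hD]; push_cast; field_simp; ring
    rw [h4] at h1 h2
    nlinarith

end Pool.Agent.MP_ff3a4f_co.Old.SharpRate
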